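import Pool.Agent.H50.IU.Defs

/-!
# Generic infinite valence: definitions
-/

open Complex Set Filter Topology

namespace Pool.Agent.H50.IW

/-- the class of `C` and `r` -/
structure InK (C r : ℝ) (f : ℂ → ℂ) : Prop where
  diff : DifferentiableOn ℂ f (Metric.ball 0 1)
  zero : f 0 = 0
  le_r : ∀ z ∈ Metric.ball (0 : ℂ) 1, (1 - ‖z‖ ^ 2) * ‖deriv f z‖ ≤ r
  le_C : ∀ z ∈ Metric.ball (0 : ℂ) 1, (1 - ‖z‖ ^ 2) * ‖deriv f z‖ ≤ 1 + C * (1 - ‖z‖)

/-- the class as a set of continuous functions on the disc (compact-open topology) -/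
def KSet (C r : ℝ) : Set C(Metric.ball (0 : ℂ) 1, ℂ) :=
  {F | ∃ f : ℂ → ℂ, InK C r f ∧ ∀ z : Metric.ball (0 : ℂ) 1, F z = f z}

end Pool.Agent.H50.IW
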