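import Pool.Agent.H50.IW.Defs
import Pool.Agent.H50.IU.Final
import Pool.Agent.H50.IT.Approx

/-! # Density (helper50's backup) -/

open Complex Set Filter Topology

namespace Pool.Agent.H50.IW

open Pool.Agent.H50.IU (P Prim Rob step exists_prim)

theorem dens {C r : ℝ} (hC : 1 < C) (hr : 1 < r) {f : ℂ → ℂ} (hf : InK C r f)
    {ξ : ℂ} (hξ : ‖ξ‖ = 1) {δ ε ρ₀ : ℝ} (hδ : 0 < δ) (hε : 0 < ε) (hρ₀ : ρ₀ < 1) :
    ∃ f' g' : ℂ → ℂ, InK C r f' ∧ Prim f' g' ∧ (∀ z : ℂ, ‖z‖ ≤ ρ₀ → ‖f' z - f z‖ ≤ ε) ∧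
      ∃ η > 0, Rob g' ξ δ η := by
  obtain ⟨f₁, κ, N, hκ, hN, h10, h1, hclose⟩ := Pool.Agent.H50.IT.approx_T
    (by linarith : (0 : ℝ) ≤ C) (by linarith : (0 : ℝ) < r) hf.diff hf.zero hf.le_r hf.le_C hρ₀
    (half_pos hε)
  have hP : P C r f₁ := by
    refine ⟨fun z hz => ?_, h10, ⟨N * 2, fun z hz => ?_⟩, fun z hz => ?_, fun z hz => ?_⟩
    all_goals rw [mem_ball_zero_iff] at hz
    · exact (h1 z hz.le).1.differentiableWithinAt
    · refine (h1 z hz.le).2.1.trans ?_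
      have g2 : ‖1 - z‖ ≤ 2 := by
        have := norm_sub_le (1 : ℂ) z
        rw [norm_one] at this
        linarith
      gcongr
    · have := (h1 z hz.le).2.2.1
      linarith
    · have := (h1 z hz.le).2.2.2
      linarith
  obtain ⟨g₁, hg₁⟩ := exists_prim hP
  obtain ⟨f', g', a1, a2, a3, a4, a5⟩ := step hC hr hP hg₁ hξ hδ (half_pos hε) hρ₀
  refine ⟨f', g', ⟨a1.diff, a1.zero, a1.le_r, a1.le_C⟩, a2, fun z hz => ?_, a5⟩
  have e1 := a3 z hz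
  have e2 := hclose z hz
  have e3 : f' z - f z = (f' z - f₁ z) + (f₁ z - f z) := by ring
  rw [e3]
  have := norm_add_le (f' z - f₁ z) (f₁ z - f z)
  linarith

end Pool.Agent.H50.IW
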