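import Pool.Agent.H50.IW.Top
import Pool.Agent.H50.IU.Final2

/-! # Generic infinite valence -/

open Complex Set Filter Topology

namespace Pool.Agent.H50.IW

open Pool.Agent.H50.IU (P Prim Rob residual_good dense_residual)

/-- the primitives are unique -/
lemma prim_unique {f f' g g' : ℂ → ℂ} (hg : Prim f g) (hg' : Prim f' g')
    (h : ∀ z ∈ Metric.ball (0 : ℂ) 1, f z = f' z) :
    ∀ z ∈ Metric.closedBall (0 : ℂ) 1, g z = g' z := by
  have h1 : ∀ z ∈ Metric.ball (0 : ℂ) 1, g z - g' z = 0 := by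
    intro z hz
    have h2 := (convex_ball (0 : ℂ) 1).norm_image_sub_le_of_norm_hasDerivWithin_le
      (f := fun z => g z - g' z) (f' := fun _ => 0) (C := 0) (x := 0) (y := z)
      (fun w hw => by
        have := (hg.deriv w hw).sub (hg'.deriv w hw)
        rw [h w hw, sub_self] at this
        exact this.hasDerivWithinAt)
      (fun w _ => by simp) (by simp) hz
    simp only [zero_mul, norm_le_zero_iff, hg.zero, hg'.zero, sub_zero] at h2
    exact h2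
  intro z hz
  have hcl : z ∈ closure (Metric.ball (0 : ℂ) 1) := by
    rwa [closure_ball (0 : ℂ) one_ne_zero]
  have hc : ContinuousOn (fun z => g z - g' z) (Metric.closedBall (0 : ℂ) 1) :=
    hg.cont.sub hg'.cont
  have h3 := hc z hz
  have h4 : (𝓝[Metric.ball (0 : ℂ) 1] z).NeBot := mem_closure_iff_nhdsWithin_neBot.1 hcl
  have h5 : Tendsto (fun z => g z - g' z) (𝓝[Metric.ball (0 : ℂ) 1] z) (𝓝 (g z - g' z)) :=
    h3.mono_left (nhdsWithin_mono _ Metric.ball_subset_closedBall)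
  have h6 : Tendsto (fun z => g z - g' z) (𝓝[Metric.ball (0 : ℂ) 1] z) (𝓝 0) := by
    refine (tendsto_const_nhds (x := (0 : ℂ))).congr' ?_
    filter_upwards [self_mem_nhdsWithin] with w hw
    exact (h1 w hw).symm
  exact sub_eq_zero.1 (tendsto_nhds_unique h5 h6)

/-- the functions of the class with infinite valence near residually many boundary points, and
near the points of `E` -/
def GoodSet (C r : ℝ) (E : Set ℂ) : Set (KSet C r) :=
  {F | ∃ f g : ℂ → ℂ, InK C r f ∧ (∀ z : Metric.ball (0 : ℂ) 1, F.1 z = f z) ∧ Prim f g ∧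
    (∀ ξ ∈ E, ∀ δ : ℝ, 0 < δ →
      {z ∈ Metric.ball (0 : ℂ) 1 | ‖z - ξ‖ < δ ∧ g z = g ξ}.Infinite) ∧
    {ξ : Metric.sphere (0 : ℂ) 1 | ∀ δ : ℝ, 0 < δ →
      {z ∈ Metric.ball (0 : ℂ) 1 | ‖z - (ξ : ℂ)‖ < δ ∧ g z = g (ξ : ℂ)}.Infinite} ∈
        residual (Metric.sphere (0 : ℂ) 1)}

theorem dense_good {C r : ℝ} (hC : 1 < C) (hr : 1 < r) {E : Set ℂ} (hE : E.Countable)
    (hE1 : ∀ ξ ∈ E, ‖ξ‖ = 1) : Dense (GoodSet C r E) := by
  refine dense_of fun f hf ρ₀ hρ₀ ε hε => ?_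
  obtain ⟨f', g, a1, a2, a3, a4, a5, ⟨r', hr', a6⟩, a7, a8, a9, a10⟩ :=
    dense_residual C hC r hr f hf.diff hf.zero hf.le_r hf.le_C ρ₀ hρ₀ ε hε E hE hE1
  have hf' : InK C r f' := ⟨a1, a2, fun z hz => (a6 z hz).trans hr'.le, a7⟩
  refine ⟨toK hf', ⟨f', g, hf', fun z => toK_apply hf' z, ⟨a4, a3, a5⟩, a9, a10⟩, ?_⟩
  intro z hz
  rw [toK_apply]
  exact (a8 z hz).le

theorem residual_goodSet {C r : ℝ} (hC : 1 < C) (hr : 1 < r) {E : Set ℂ} (hE : E.Countable)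
    (hE1 : ∀ ξ ∈ E, ‖ξ‖ = 1) : GoodSet C r E ∈ residual (KSet C r) := by
  classical
  have hne : Nonempty (Metric.sphere (0 : ℂ) 1) := ⟨⟨1, by simp⟩⟩
  set w : ℕ → Metric.sphere (0 : ℂ) 1 := TopologicalSpace.denseSeq _ with hw
  have hwd : DenseRange w := TopologicalSpace.denseRange_denseSeq _
  obtain ⟨u, hu⟩ := ((countable_range fun n => (w n : ℂ)).union hE).exists_eq_range
    ⟨(w 0 : ℂ), Or.inl ⟨0, rfl⟩⟩
  have hu1 : ∀ j, ‖u j‖ = 1 := by
    intro j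
    have h1 : u j ∈ (range fun n => (w n : ℂ)) ∪ E := hu ▸ mem_range_self j
    rcases h1 with ⟨n, hn⟩ | h1
    · rw [← hn]
      simpa using (w n).2
    · exact hE1 _ h1
  set O : ℕ × ℕ → Set (KSet C r) := fun p => {F : KSet C r | ∃ f g : ℂ → ℂ, InK C r f ∧
    (∀ z : Metric.ball (0 : ℂ) 1, F.1 z = f z) ∧ Prim f g ∧
      ∃ η > 0, Rob g (u p.1) (1 / ((p.2 : ℝ) + 1)) η} with hO
  have hres : (⋂ p, O p) ∈ residual (KSet C r) := by
    rw [countable_iInter_mem]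
    intro p
    exact residual_of_dense_open (isOpen_rob (by linarith) _ _ (hu1 _))
      (dense_rob hC hr _ _ (hu1 _) (by positivity))
  refine mem_of_superset hres ?_
  intro F hF
  rw [mem_iInter] at hF
  obtain ⟨f, g, hf, hFf, hg, -⟩ := hF (0, 0)
  have key : ∀ j : ℕ, ∀ δ : ℝ, 0 < δ →
      {z ∈ Metric.ball (0 : ℂ) 1 | ‖z - u j‖ < δ ∧ g z = g (u j)}.Infinite := by
    intro j
    have hnear : ∀ d : ℝ, 0 < d → ∃ z ∈ Metric.ball (0 : ℂ) 1, ‖z - u j‖ < d ∧ g z = g (u j) := by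
      intro d hd
      obtain ⟨i, hi⟩ := exists_nat_one_div_lt hd
      obtain ⟨f', g', hf', hFf', hg', η, hη, hR⟩ := hF (j, i)
      have huniq := prim_unique hg hg' (fun z hz => by
        have h1 := hFf ⟨z, hz⟩
        have h2 := hFf' ⟨z, hz⟩
        rw [← h1, ← h2])
      obtain ⟨z, hz, hz1, hz2⟩ := hR g' hg'.cont
        (fun z hz => ⟨_, exp_ne_zero _, hg'.deriv z hz⟩)
        (fun z _ => by rw [sub_self, norm_zero]; exact hη.le)
      refine ⟨z, hz, hz1.trans hi, ?_⟩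
      rw [huniq z (Metric.ball_subset_closedBall hz),
        huniq (u j) (by rw [mem_closedBall_zero_iff]; exact (hu1 j).le)]
      exact hz2
    intro δ hδ hfin
    set S := {z ∈ Metric.ball (0 : ℂ) 1 | ‖z - u j‖ < δ ∧ g z = g (u j)} with hS
    obtain ⟨z₁, hz₁, hz₁d, hz₁v⟩ := hnear δ hδ
    obtain ⟨z₀, hz₀, hmin⟩ := hfin.exists_minimalFor (fun z => ‖z - u j‖) S
      ⟨z₁, hz₁, hz₁d, hz₁v⟩
    have hpos : 0 < ‖z₀ - u j‖ := by
      rw [norm_pos_iff]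
      intro h0
      have h1 := hz₀.1
      rw [mem_ball_zero_iff, sub_eq_zero.1 h0, hu1 j] at h1
      exact lt_irrefl _ h1
    obtain ⟨z, hz, hzd, hzv⟩ := hnear ‖z₀ - u j‖ hpos
    have h4 := hmin (j := z) ⟨hz, hzd.trans hz₀.2.1, hzv⟩ hzd.le
    simp only at h4
    linarith
  have hmem : ∀ ξ : ℂ, ξ ∈ (range fun n => (w n : ℂ)) ∪ E → ∃ j, u j = ξ := by
    intro ξ hξ
    rw [hu] at hξ
    exact hξ
  refine ⟨f, g, hf, hFf, hg, ?_, residual_good hg ?_⟩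
  · intro ξ hξ δ hδ
    obtain ⟨j, rfl⟩ := hmem ξ (Or.inr hξ)
    exact key j δ hδ
  · intro ξ₀ hξ₀ δ hδ
    obtain ⟨n, hn⟩ := hwd.exists_dist_lt (⟨ξ₀, by simpa using hξ₀⟩ : Metric.sphere (0 : ℂ) 1) hδ
    obtain ⟨j, hj⟩ := hmem (w n : ℂ) (Or.inl ⟨n, rfl⟩)
    refine ⟨u j, hu1 j, ?_, fun δ' hδ' => key j δ' hδ'⟩
    rw [Subtype.dist_eq, dist_eq_norm] at hn
    rw [hj, norm_sub_rev]
    exact hn

end Pool.Agent.H50.IW
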