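import Pool.Agent.H50.IW.Final

/-! # Generic infinite valence: final form -/

open Complex Set Filter Topology

namespace Pool.Agent.H50.IW

open Pool.Agent.H50.IU (P Prim Rob)

/-- The functions `F` of the class for which `g` (`g 0 = 0`, `g' = exp F`, continuous on the closed
disc) takes the value `g ξ` infinitely often in every neighbourhood of `ξ`, for all `ξ` in `E` and
for residually many `ξ` of the circle. -/
def GenSet (C r : ℝ) (E : Set ℂ) : Set (KSet C r) :=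
  {F | ∃ g : ℂ → ℂ, g 0 = 0 ∧ ContinuousOn g (Metric.closedBall 0 1) ∧
    (∀ z : Metric.ball (0 : ℂ) 1, HasDerivAt g (exp (F.1 z)) (z : ℂ)) ∧
    (∀ ξ ∈ E, ∀ δ : ℝ, 0 < δ →
      {z ∈ Metric.ball (0 : ℂ) 1 | ‖z - ξ‖ < δ ∧ g z = g ξ}.Infinite) ∧
    {ξ : Metric.sphere (0 : ℂ) 1 | ∀ δ : ℝ, 0 < δ →
      {z ∈ Metric.ball (0 : ℂ) 1 | ‖z - (ξ : ℂ)‖ < δ ∧ g z = g (ξ : ℂ)}.Infinite} ∈
        residual (Metric.sphere (0 : ℂ) 1)}

lemma goodSet_subset (C r : ℝ) (E : Set ℂ) : GoodSet C r E ⊆ GenSet C r E := by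
  rintro F ⟨f, g, hf, hFf, hg, h1, h2⟩
  refine ⟨g, hg.zero, hg.cont, fun z => ?_, h1, h2⟩
  rw [hFf z]
  exact hg.deriv z z.2

theorem generic : ∀ C : ℝ, 1 < C → ∀ r : ℝ, 1 < r → ∀ E : Set ℂ, E.Countable →
    (∀ ξ ∈ E, ‖ξ‖ = 1) → Dense (GenSet C r E) ∧ GenSet C r E ∈ residual (KSet C r) :=
  fun C hC r hr E hE hE1 => ⟨(dense_good hC hr hE hE1).mono (goodSet_subset C r E),
    mem_of_superset (residual_goodSet hC hr hE hE1) (goodSet_subset C r E)⟩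

end Pool.Agent.H50.IW
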