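import Pool.Agent.H50.IW.Defs
import Pool.Agent.H50.IU.Ext

/-!
# The primitive of `exp f` for `f` in the class: a uniform bound near the circle
-/

open Complex Set Filter Topology

namespace Pool.Agent.H50.IW

open Pool.Agent.H50.IU (Prim le_closed)

lemma norm_smul_lt {z : ℂ} (hz : ‖z‖ < 1) {s : ℝ} (h0 : 0 ≤ s) (h1 : s ≤ 1) :
    ‖(s : ℂ) * z‖ = s * ‖z‖ ∧ s * ‖z‖ < 1 := by
  refine ⟨?_, ?_⟩
  · rw [norm_mul, Complex.norm_real, Real.norm_of_nonneg h0]
  · nlinarith [norm_nonneg z]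

/-- a function of the class grows at most like half the logarithm -/
lemma norm_le_log {C r : ℝ} {f : ℂ → ℂ} (hC : 0 ≤ C) (hf : InK C r f) {z : ℂ} (hz : ‖z‖ < 1) :
    ‖f z‖ ≤ -(Real.log (1 - ‖z‖) / 2) + (1 / 2 + C) := by
  have hsz : ∀ s ∈ Icc (0 : ℝ) 1, ‖(s : ℂ) * z‖ = s * ‖z‖ ∧ s * ‖z‖ < 1 := fun s hs =>
    norm_smul_lt hz hs.1 hs.2
  have hder : ∀ s ∈ Icc (0 : ℝ) 1,
      HasDerivAt (fun s : ℝ => f ((s : ℂ) * z)) (deriv f ((s : ℂ) * z) * z) s := by
    intro s hs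
    have hmem : (s : ℂ) * z ∈ Metric.ball (0 : ℂ) 1 := by
      rw [mem_ball_zero_iff, (hsz s hs).1]
      exact (hsz s hs).2
    have h1 : HasDerivAt f (deriv f ((s : ℂ) * z)) ((s : ℂ) * z) :=
      (hf.diff.differentiableAt (Metric.isOpen_ball.mem_nhds hmem)).hasDerivAt
    have h2 : HasDerivAt (fun w : ℂ => w * z) z (s : ℂ) := by
      simpa using (hasDerivAt_id (s : ℂ)).mul_const z
    exact (HasDerivAt.comp (s : ℂ) h1 h2).comp_ofReal
  have hB : ∀ s ∈ Icc (0 : ℝ) 1, HasDerivAt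
      (fun s : ℝ => -(Real.log (1 - s * ‖z‖) / 2) + (1 / 2 + C) * (s * ‖z‖))
      (‖z‖ / (2 * (1 - s * ‖z‖)) + (1 / 2 + C) * ‖z‖) s := by
    intro s hs
    have hpos : 0 < 1 - s * ‖z‖ := by linarith [(hsz s hs).2]
    have h1 : HasDerivAt (fun s : ℝ => 1 - s * ‖z‖) (-‖z‖) s := by
      simpa using ((hasDerivAt_id s).mul_const ‖z‖).const_sub 1
    have h2 := (h1.log hpos.ne').div_const 2
    have h3 : HasDerivAt (fun s : ℝ => (1 / 2 + C) * (s * ‖z‖)) ((1 / 2 + C) * ‖z‖) s := by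
      simpa using ((hasDerivAt_id s).mul_const ‖z‖).const_mul (1 / 2 + C)
    refine (h2.neg.add h3).congr_deriv ?_
    field_simp
  have key := image_norm_le_of_norm_deriv_right_le_deriv_boundary'
    (f := fun s : ℝ => f ((s : ℂ) * z)) (f' := fun s : ℝ => deriv f ((s : ℂ) * z) * z)
    (a := 0) (b := 1)
    (B := fun s : ℝ => -(Real.log (1 - s * ‖z‖) / 2) + (1 / 2 + C) * (s * ‖z‖))
    (B' := fun s : ℝ => ‖z‖ / (2 * (1 - s * ‖z‖)) + (1 / 2 + C) * ‖z‖)
    (fun s hs => (hder s hs).continuousAt.continuousWithinAt)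
    (fun s hs => (hder s (Ico_subset_Icc_self hs)).hasDerivWithinAt)
    (by simp [hf.zero])
    (fun s hs => (hB s hs).continuousAt.continuousWithinAt)
    (fun s hs => (hB s (Ico_subset_Icc_self hs)).hasDerivWithinAt)
    (by
      intro s hs
      have hs' := Ico_subset_Icc_self hs
      have hu1 := (hsz s hs').2
      have hu0 : 0 ≤ s * ‖z‖ := mul_nonneg hs'.1 (norm_nonneg z)
      have hmem : (s : ℂ) * z ∈ Metric.ball (0 : ℂ) 1 := by
        rw [mem_ball_zero_iff, (hsz s hs').1]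
        exact hu1
      have h1 := hf.le_C _ hmem
      rw [(hsz s hs').1] at h1
      rw [norm_mul]
      set u := s * ‖z‖ with hu
      set D := ‖deriv f ((s : ℂ) * z)‖ with hD
      have hpos : 0 < 1 - u := by linarith
      have hpos2 : 0 < 1 - u ^ 2 := by nlinarith
      have h2 : D ≤ 1 / (2 * (1 - u)) + (1 / 2 + C) := by
        have h3 : (1 - u ^ 2) * (1 / (2 * (1 - u)) + (1 / 2 + C))
            = (1 + u) / 2 + (1 / 2 + C) * (1 - u ^ 2) := by
          field_simp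
          ring
        have h4 : (1 - u ^ 2) * D ≤ (1 - u ^ 2) * (1 / (2 * (1 - u)) + (1 / 2 + C)) := by
          rw [h3]
          nlinarith [mul_nonneg hu0 hpos.le, mul_nonneg hC (mul_nonneg hu0 hpos.le)]
        exact le_of_mul_le_mul_left h4 hpos2
      calc D * ‖z‖ ≤ (1 / (2 * (1 - u)) + (1 / 2 + C)) * ‖z‖ := by gcongr
        _ = ‖z‖ / (2 * (1 - u)) + (1 / 2 + C) * ‖z‖ := by ring)
  have h1 := key (right_mem_Icc.2 zero_le_one)
  simp only [ofReal_one, one_mul] at h1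
  refine h1.trans ?_
  nlinarith [norm_nonneg z]

/-- the derivative of the primitive is at most a constant over the root of the distance -/
lemma exp_le_div {C r : ℝ} {f : ℂ → ℂ} (hC : 0 ≤ C) (hf : InK C r f) {z : ℂ} (hz : ‖z‖ < 1) :
    ‖exp (f z)‖ ≤ Real.exp (1 / 2 + C) / √(1 - ‖z‖) := by
  have hpos : 0 < 1 - ‖z‖ := by linarith
  have h1 : ‖exp (f z)‖ ≤ Real.exp (-(Real.log (1 - ‖z‖) / 2) + (1 / 2 + C)) := by
    rw [norm_exp]
    exact Real.exp_le_exp.2 ((re_le_norm _).trans (norm_le_log hC hf hz))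
  refine h1.trans (le_of_eq ?_)
  rw [Real.exp_add, Real.exp_neg, ← Real.log_sqrt hpos.le, Real.exp_log (Real.sqrt_pos.2 hpos)]
  exact (mul_comm _ _).trans (div_eq_mul_inv _ _).symm

/-- radial increments of a primitive -/
lemma radial {C r : ℝ} {f g : ℂ → ℂ} (hC : 0 ≤ C) (hf : InK C r f)
    (hg : ∀ z ∈ Metric.ball (0 : ℂ) 1, HasDerivAt g (exp (f z)) z) {z : ℂ} (hz : ‖z‖ ≤ 1)
    {a b : ℝ} (ha : 0 ≤ a) (hab : a ≤ b) (hb : b < 1) :
    ‖g ((b : ℂ) * z) - g ((a : ℂ) * z)‖ ≤ 2 * Real.exp (1 / 2 + C) * √(1 - a) := by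
  set K := Real.exp (1 / 2 + C) with hK
  have hK0 : 0 < K := Real.exp_pos _
  have hn : ∀ s ∈ Icc a b, ‖(s : ℂ) * z‖ ≤ s ∧ s < 1 := by
    intro s hs
    refine ⟨?_, lt_of_le_of_lt hs.2 hb⟩
    rw [norm_mul, Complex.norm_real, Real.norm_of_nonneg (ha.trans hs.1)]
    nlinarith [ha.trans hs.1]
  have hmem : ∀ s ∈ Icc a b, (s : ℂ) * z ∈ Metric.ball (0 : ℂ) 1 := by
    intro s hs
    rw [mem_ball_zero_iff]
    exact lt_of_le_of_lt (hn s hs).1 (hn s hs).2
  have hder : ∀ s ∈ Icc a b,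
      HasDerivAt (fun s : ℝ => g ((s : ℂ) * z) - g ((a : ℂ) * z)) (exp (f ((s : ℂ) * z)) * z) s := by
    intro s hs
    have h2 : HasDerivAt (fun w : ℂ => w * z) z (s : ℂ) := by
      simpa using (hasDerivAt_id (s : ℂ)).mul_const z
    exact ((HasDerivAt.comp (s : ℂ) (hg _ (hmem s hs)) h2).comp_ofReal).sub_const _
  have hB : ∀ s ∈ Icc a b, HasDerivAt
      (fun s : ℝ => 2 * K * √(1 - a) - 2 * K * √(1 - s)) (K / √(1 - s)) s := by
    intro s hs
    have hpos : 0 < 1 - s := by linarith [(hn s hs).2]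
    have h1 : HasDerivAt (fun s : ℝ => 1 - s) (-1) s := by
      simpa using (hasDerivAt_id s).const_sub 1
    have h2 := ((h1.sqrt hpos.ne').const_mul (2 * K)).const_sub (2 * K * √(1 - a))
    refine h2.congr_deriv ?_
    have : √(1 - s) ≠ 0 := (Real.sqrt_pos.2 hpos).ne'
    field_simp
  have key := image_norm_le_of_norm_deriv_right_le_deriv_boundary'
    (f := fun s : ℝ => g ((s : ℂ) * z) - g ((a : ℂ) * z))
    (f' := fun s : ℝ => exp (f ((s : ℂ) * z)) * z)
    (a := a) (b := b)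
    (B := fun s : ℝ => 2 * K * √(1 - a) - 2 * K * √(1 - s))
    (B' := fun s : ℝ => K / √(1 - s))
    (fun s hs => (hder s hs).continuousAt.continuousWithinAt)
    (fun s hs => (hder s (Ico_subset_Icc_self hs)).hasDerivWithinAt)
    (by simp)
    (fun s hs => (hB s hs).continuousAt.continuousWithinAt)
    (fun s hs => (hB s (Ico_subset_Icc_self hs)).hasDerivWithinAt)
    (by
      intro s hs
      have hs' := Ico_subset_Icc_self hs
      obtain ⟨hn1, hn2⟩ := hn s hs'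
      have h1 := exp_le_div hC hf (lt_of_le_of_lt hn1 hn2)
      have hpos : 0 < √(1 - s) := Real.sqrt_pos.2 (by linarith)
      have h2 : √(1 - s) ≤ √(1 - ‖(s : ℂ) * z‖) := Real.sqrt_le_sqrt (by linarith)
      have h3 : Real.exp (1 / 2 + C) / √(1 - ‖(s : ℂ) * z‖) ≤ K / √(1 - s) := by
        rw [← hK]
        exact div_le_div_of_nonneg_left hK0.le hpos h2
      rw [norm_mul]
      calc ‖exp (f ((s : ℂ) * z))‖ * ‖z‖ ≤ ‖exp (f ((s : ℂ) * z))‖ * 1 := by gcongr
        _ = ‖exp (f ((s : ℂ) * z))‖ := mul_one _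
        _ ≤ K / √(1 - s) := h1.trans h3)
  have h1 := key (right_mem_Icc.2 hab)
  refine h1.trans ?_
  have : 0 ≤ 2 * K * √(1 - b) := by positivity
  linarith

/-- a sequence tending to one from below -/
noncomputable def ρs (n : ℕ) : ℝ := 1 - 1 / ((n : ℝ) + 1)

lemma ρs_nonneg (n : ℕ) : 0 ≤ ρs n := by
  unfold ρs
  have : 1 / ((n : ℝ) + 1) ≤ 1 := by
    rw [div_le_one (by positivity)]
    have : (0 : ℝ) ≤ n := n.cast_nonneg
    linarith
  linarith

lemma ρs_lt (n : ℕ) : ρs n < 1 := by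
  unfold ρs
  have : 0 < 1 / ((n : ℝ) + 1) := by positivity
  linarith

lemma ρs_mono {m n : ℕ} (h : m ≤ n) : ρs m ≤ ρs n := by
  unfold ρs
  have : 1 / ((n : ℝ) + 1) ≤ 1 / ((m : ℝ) + 1) := by
    apply one_div_le_one_div_of_le (by positivity)
    have : (m : ℝ) ≤ n := by exact_mod_cast h
    linarith
  linarith

lemma ρs_tendsto : Tendsto ρs atTop (𝓝 1) := by
  unfold ρs
  simpa using tendsto_one_div_add_atTop_nhds_zero_nat.const_sub (1 : ℝ)

lemma sqrt_tendsto (K : ℝ) : Tendsto (fun n => 2 * K * √(1 - ρs n)) atTop (𝓝 0) := by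
  have h1 : Tendsto (fun n => 1 - ρs n) atTop (𝓝 0) := by
    simpa using ρs_tendsto.const_sub 1
  have h2 := (Real.continuous_sqrt.tendsto 0).comp h1
  simpa using h2.const_mul (2 * K)

/-- the primitive of `exp f` extends continuously to the closed disc -/
theorem exists_prim_K {C r : ℝ} {f : ℂ → ℂ} (hC : 0 ≤ C) (hf : InK C r f) : ∃ g, Prim f g := by
  set K := Real.exp (1 / 2 + C) with hK
  have h0 : (0 : ℂ) ∈ Metric.ball (0 : ℂ) 1 := by simp
  have hE : DifferentiableOn ℂ (fun z => exp (f z)) (Metric.ball 0 1) := hf.diff.cexp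
  obtain ⟨g₁, hg₁⟩ := hE.isExactOn_ball
  obtain ⟨g₀, hg₀, hg₀0⟩ : ∃ g₀ : ℂ → ℂ,
      (∀ z ∈ Metric.ball (0 : ℂ) 1, HasDerivAt g₀ (exp (f z)) z) ∧ g₀ 0 = 0 :=
    ⟨fun z => g₁ z - g₁ 0, fun z hz => (hg₁ z hz).sub_const _, by simp⟩
  have hcont : ContinuousOn g₀ (Metric.ball 0 1) := fun z hz =>
    (hg₀ z hz).continuousAt.continuousWithinAt
  have hrad : ∀ z : ℂ, ‖z‖ ≤ 1 → ∀ n m N : ℕ, N ≤ n → N ≤ m →
      dist (g₀ ((ρs n : ℂ) * z)) (g₀ ((ρs m : ℂ) * z)) ≤ 2 * K * √(1 - ρs N) := by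
    have hwlog : ∀ z : ℂ, ‖z‖ ≤ 1 → ∀ n m N : ℕ, N ≤ n → n ≤ m →
        dist (g₀ ((ρs n : ℂ) * z)) (g₀ ((ρs m : ℂ) * z)) ≤ 2 * K * √(1 - ρs N) := by
      intro z hz n m N hn hnm
      rw [dist_comm, dist_eq_norm]
      refine (radial hC hf hg₀ hz (ρs_nonneg n) (ρs_mono hnm) (ρs_lt m)).trans ?_
      have : √(1 - ρs n) ≤ √(1 - ρs N) := Real.sqrt_le_sqrt (by linarith [ρs_mono hn])
      gcongr
    intro z hz n m N hn hm
    rcases le_total n m with h | h
    · exact hwlog z hz n m N hn h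
    · rw [dist_comm]
      exact hwlog z hz m n N hm h
  have hlim : ∀ z : ℂ, ∃ l : ℂ, ‖z‖ ≤ 1 →
      Tendsto (fun n => g₀ ((ρs n : ℂ) * z)) atTop (𝓝 l) := by
    intro z
    by_cases hz : ‖z‖ ≤ 1
    · obtain ⟨l, hl⟩ := cauchySeq_tendsto_of_complete
        (cauchySeq_of_le_tendsto_0 _ (hrad z hz) (sqrt_tendsto K))
      exact ⟨l, fun _ => hl⟩
    · exact ⟨0, fun h => absurd h hz⟩
  choose g hg using hlim
  have hgeq : ∀ z ∈ Metric.ball (0 : ℂ) 1, g z = g₀ z := by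
    intro z hz
    have hz' : ‖z‖ < 1 := by rwa [mem_ball_zero_iff] at hz
    refine tendsto_nhds_unique (hg z hz'.le) ?_
    have h1 : Tendsto (fun n => (ρs n : ℂ) * z) atTop (𝓝 ((1 : ℂ) * z)) := by
      refine Tendsto.mul_const z ?_
      have := (Complex.continuous_ofReal.tendsto 1).comp ρs_tendsto
      simpa [Function.comp_def] using this
    rw [one_mul] at h1
    exact ((hg₀ z hz).continuousAt.tendsto).comp h1
  have hunif : ∀ z : ℂ, ‖z‖ ≤ 1 → ∀ N, dist (g z) (g₀ ((ρs N : ℂ) * z)) ≤ 2 * K * √(1 - ρs N) := by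
    intro z hz N
    refine le_of_tendsto ((hg z hz).dist tendsto_const_nhds) ?_
    filter_upwards [eventually_ge_atTop N] with n hn
    exact hrad z hz n N N hn le_rfl
  refine ⟨g, ?_, ?_, ?_⟩
  · refine continuousOn_of_uniform_approx_of_continuousOn fun u hu => ?_
    obtain ⟨ε, hε, hεu⟩ := Metric.mem_uniformity_dist.1 hu
    obtain ⟨N, hN⟩ := ((sqrt_tendsto K).eventually (gt_mem_nhds hε)).exists
    refine ⟨fun z => g₀ ((ρs N : ℂ) * z), ?_, ?_⟩
    · refine hcont.comp (by fun_prop) ?_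
      intro z hz
      rw [mem_closedBall_zero_iff] at hz
      rw [mem_ball_zero_iff, norm_mul, Complex.norm_real, Real.norm_of_nonneg (ρs_nonneg N)]
      nlinarith [ρs_nonneg N, ρs_lt N]
    · intro z hz
      rw [mem_closedBall_zero_iff] at hz
      exact hεu (lt_of_le_of_lt (hunif z hz N) hN)
  · rw [hgeq 0 h0, hg₀0]
  · intro z hz
    refine (hg₀ z hz).congr_of_eventuallyEq ?_
    filter_upwards [Metric.isOpen_ball.mem_nhds hz] with w hw
    exact hgeq w hw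

/-- primitives of functions of the class near on a smaller disc are near -/
theorem prim_unif {C r : ℝ} (hC : 0 ≤ C) {ε : ℝ} (hε : 0 < ε) :
    ∃ ρ < 1, ∃ ε' > 0, ∀ f f' g g' : ℂ → ℂ, InK C r f → InK C r f' → Prim f g → Prim f' g' →
      (∀ z : ℂ, ‖z‖ ≤ ρ → ‖f' z - f z‖ ≤ ε') →
      ∀ z ∈ Metric.closedBall (0 : ℂ) 1, ‖g' z - g z‖ ≤ ε := by
  set K := Real.exp (1 / 2 + C) with hK
  have hK0 : 0 < K := Real.exp_pos _
  obtain ⟨δ, hδ0, hδ1, hδ2⟩ : ∃ δ : ℝ, 0 < δ ∧ δ ≤ 1 / 2 ∧ 8 * K * δ ≤ ε := by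
    refine ⟨min (1 / 2) (ε / (8 * K)), lt_min (by norm_num) (by positivity), min_le_left _ _, ?_⟩
    calc 8 * K * min (1 / 2) (ε / (8 * K)) ≤ 8 * K * (ε / (8 * K)) := by
          gcongr
          exact min_le_right _ _
      _ = ε := by field_simp
  set ρ := 1 - δ ^ 2 with hρ
  have hρ1 : ρ < 1 := by
    have : 0 < δ ^ 2 := by positivity
    linarith
  have hρ0 : 0 < ρ := by nlinarith
  have hsq : √(1 - ρ) = δ := by
    rw [show 1 - ρ = δ ^ 2 by rw [hρ]; ring]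
    exact Real.sqrt_sq hδ0.le
  set A := -(Real.log (1 - ρ) / 2) + (1 / 2 + C) with hA
  refine ⟨ρ, hρ1, min 1 (ε / (4 * Real.exp A)), lt_min one_pos (by positivity), ?_⟩
  intro f f' g g' hf hf' hg hg' hff
  set ε' := min 1 (ε / (4 * Real.exp A)) with hε'
  have hε'1 : ε' ≤ 1 := min_le_left _ _
  have hε'2 : 2 * Real.exp A * ε' ≤ ε / 2 := by
    calc 2 * Real.exp A * ε' ≤ 2 * Real.exp A * (ε / (4 * Real.exp A)) := by
          gcongr
          exact min_le_right _ _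
      _ = ε / 2 := by
          field_simp
          norm_num
  have hε'0 : 0 ≤ ε' := le_min zero_le_one (by positivity)
  have hball : ∀ w ∈ Metric.closedBall (0 : ℂ) ρ, w ∈ Metric.ball (0 : ℂ) 1 := by
    intro w hw
    rw [mem_closedBall_zero_iff] at hw
    rw [mem_ball_zero_iff]
    linarith
  have hin : ∀ z ∈ Metric.closedBall (0 : ℂ) ρ, ‖g' z - g z‖ ≤ ε / 2 := by
    intro z hz
    have hb : ∀ w ∈ Metric.closedBall (0 : ℂ) ρ,
        ‖exp (f' w) - exp (f w)‖ ≤ 2 * Real.exp A * ε' := by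
      intro w hw
      have hw' : ‖w‖ ≤ ρ := by rwa [mem_closedBall_zero_iff] at hw
      have e1 : exp (f' w) - exp (f w) = exp (f w) * (exp (f' w - f w) - 1) := by
        rw [mul_sub, ← exp_add, mul_one]
        congr 2
        ring
      rw [e1, norm_mul]
      have h1 : ‖exp (f w)‖ ≤ Real.exp A := by
        rw [norm_exp]
        refine Real.exp_le_exp.2 ((re_le_norm _).trans ?_)
        refine (norm_le_log hC hf (lt_of_le_of_lt hw' hρ1)).trans ?_
        have : Real.log (1 - ρ) ≤ Real.log (1 - ‖w‖) := by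
          apply Real.log_le_log (by linarith)
          linarith
        rw [hA]
        linarith
      have h2 : ‖exp (f' w - f w) - 1‖ ≤ 2 * ε' :=
        (norm_exp_sub_one_le ((hff w hw').trans hε'1)).trans (by linarith [hff w hw'])
      calc ‖exp (f w)‖ * ‖exp (f' w - f w) - 1‖ ≤ Real.exp A * (2 * ε') := by gcongr
        _ = 2 * Real.exp A * ε' := by ring
    have h0 : (0 : ℂ) ∈ Metric.closedBall (0 : ℂ) ρ := by
      rw [mem_closedBall_zero_iff, norm_zero]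
      exact hρ0.le
    have key := (convex_closedBall (0 : ℂ) ρ).norm_image_sub_le_of_norm_hasDerivWithin_le
        (f := fun z => g' z - g z) (f' := fun z => exp (f' z) - exp (f z))
        (fun w hw => ((hg'.deriv w (hball w hw)).sub (hg.deriv w (hball w hw))).hasDerivWithinAt)
        hb h0 hz
    simp only [hg.zero, hg'.zero, sub_zero] at key
    refine key.trans ?_
    have h2 : ‖z‖ ≤ 1 := by
      rw [mem_closedBall_zero_iff] at hz
      linarith
    have h3 : 0 ≤ 2 * Real.exp A * ε' := by positivity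
    nlinarith
  refine le_closed (h := fun z => g' z - g z) (hg'.cont.sub hg.cont) ?_
  intro z hz
  have hz1 : ‖z‖ < 1 := by rwa [mem_ball_zero_iff] at hz
  rcases le_or_gt ‖z‖ ρ with hzρ | hzρ
  · have := hin z (by rwa [mem_closedBall_zero_iff])
    linarith
  · have hzpos : 0 < ‖z‖ := hρ0.trans hzρ
    obtain ⟨ξ, hξ, hzξ⟩ : ∃ ξ : ℂ, ‖ξ‖ = 1 ∧ z = (‖z‖ : ℂ) * ξ := by
      refine ⟨z / (‖z‖ : ℂ), ?_, ?_⟩
      · rw [norm_div, Complex.norm_real, norm_norm, div_self hzpos.ne']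
      · have : (‖z‖ : ℂ) ≠ 0 := by exact_mod_cast hzpos.ne'
        field_simp
    have h1 := radial hC hf hg.deriv hξ.le hρ0.le hzρ.le hz1
    have h2 := radial hC hf' hg'.deriv hξ.le hρ0.le hzρ.le hz1
    rw [← hzξ, hsq, ← hK] at h1 h2
    have h3 := hin ((ρ : ℂ) * ξ) (by
      rw [mem_closedBall_zero_iff, norm_mul, hξ, Complex.norm_real, Real.norm_of_nonneg hρ0.le,
        mul_one])
    have e : g' z - g z = (g' z - g' ((ρ : ℂ) * ξ)) - (g z - g ((ρ : ℂ) * ξ))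
        + (g' ((ρ : ℂ) * ξ) - g ((ρ : ℂ) * ξ)) := by ring
    rw [e]
    refine (norm_add_le _ _).trans ?_
    have h4 := norm_sub_le (g' z - g' ((ρ : ℂ) * ξ)) (g z - g ((ρ : ℂ) * ξ))
    linarith

end Pool.Agent.H50.IW
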