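import Pool.Agent.H50.IW.Defs
import Pool.Agent.H50.IU.Final

/-! # Frames (not imported) -/

open Complex Set Filter Topology

namespace Pool.Agent.H50.IW

open Pool.Agent.H50.IU (P Prim Rob)

/-- A1 (Hol.lean): the primitive exists and is continuous on the closed disc -/
theorem exists_prim_K {C r : ℝ} {f : ℂ → ℂ} (hC : 0 ≤ C) (hf : InK C r f) : ∃ g, Prim f g := sorry

/-- A2 (Hol.lean): uniform dependence on `f` -/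
theorem prim_unif {C r : ℝ} (hC : 0 ≤ C) {ε : ℝ} (hε : 0 < ε) : ∃ ρ < 1, ∃ ε' > 0,
    ∀ f f' g g' : ℂ → ℂ, InK C r f → InK C r f' → Prim f g → Prim f' g' →
      (∀ z : ℂ, ‖z‖ ≤ ρ → ‖f' z - f z‖ ≤ ε') →
      ∀ z ∈ Metric.closedBall (0 : ℂ) 1, ‖g' z - g z‖ ≤ ε := sorry

/-- B (Dens.lean): density -/
theorem dens {C r : ℝ} (hC : 1 < C) (hr : 1 < r) {f : ℂ → ℂ} (hf : InK C r f)
    {ξ : ℂ} (hξ : ‖ξ‖ = 1) {δ ε ρ₀ : ℝ} (hδ : 0 < δ) (hε : 0 < ε) (hρ₀ : ρ₀ < 1) :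
    ∃ f' g' : ℂ → ℂ, InK C r f' ∧ Prim f' g' ∧ (∀ z : ℂ, ‖z‖ ≤ ρ₀ → ‖f' z - f z‖ ≤ ε) ∧
      ∃ η > 0, Rob g' ξ δ η := sorry

/-- T1 (Top.lean): open sets -/
theorem isOpen_rob {C r : ℝ} (hC : 0 ≤ C) (ξ : ℂ) (δ : ℝ) (hξ : ‖ξ‖ = 1) :
    IsOpen {F : KSet C r | ∃ f g : ℂ → ℂ, InK C r f ∧ (∀ z : Metric.ball (0 : ℂ) 1,
      F.1 z = f z) ∧ Prim f g ∧ ∃ η > 0, Rob g ξ δ η} := sorry

/-- T2 (Top.lean): dense sets -/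
theorem dense_rob {C r : ℝ} (hC : 1 < C) (hr : 1 < r) (ξ : ℂ) (δ : ℝ) (hξ : ‖ξ‖ = 1)
    (hδ : 0 < δ) :
    Dense {F : KSet C r | ∃ f g : ℂ → ℂ, InK C r f ∧ (∀ z : Metric.ball (0 : ℂ) 1,
      F.1 z = f z) ∧ Prim f g ∧ ∃ η > 0, Rob g ξ δ η} := sorry

end Pool.Agent.H50.IW
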