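import Pool.Agent.H50.IW.TopA
import Pool.Agent.H50.IW.TopB
import Pool.Agent.H50.IW.Hol
import Pool.Agent.H50.IW.Dens

/-! # Open and dense sets -/

open Complex Set Filter Topology

namespace Pool.Agent.H50.IW

open Pool.Agent.H50.IU (P Prim Rob)

theorem isOpen_rob {C r : ℝ} (hC : 0 ≤ C) (ξ : ℂ) (δ : ℝ) (hξ : ‖ξ‖ = 1) :
    IsOpen {F : KSet C r | ∃ f g : ℂ → ℂ, InK C r f ∧ (∀ z : Metric.ball (0 : ℂ) 1,
      F.1 z = f z) ∧ Prim f g ∧ ∃ η > 0, Rob g ξ δ η} :=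
  isOpen_rob_of (fun _ hf => exists_prim_K hC hf) (fun _ hε => prim_unif hC hε) ξ δ

theorem dense_rob {C r : ℝ} (hC : 1 < C) (hr : 1 < r) (ξ : ℂ) (δ : ℝ) (hξ : ‖ξ‖ = 1)
    (hδ : 0 < δ) :
    Dense {F : KSet C r | ∃ f g : ℂ → ℂ, InK C r f ∧ (∀ z : Metric.ball (0 : ℂ) 1,
      F.1 z = f z) ∧ Prim f g ∧ ∃ η > 0, Rob g ξ δ η} :=
  dense_rob_of ξ δ fun _ hf _ hε _ hρ₀ => dens hC hr hf hξ hδ hε hρ₀

end Pool.Agent.H50.IW
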