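import Pool.Agent.H50.IW.Defs

/-!
# Open and dense sets of the class, from the analytic statements as hypotheses
-/

open Complex Set Filter Topology

namespace Pool.Agent.H50.IW

open Pool.Agent.H50.IU (P Prim Rob)

/-- the functions whose primitive takes the value at `ξ` again near `ξ`, robustly -/
def RobSet (C r : ℝ) (ξ : ℂ) (δ : ℝ) : Set (KSet C r) :=
  {F : KSet C r | ∃ f g : ℂ → ℂ, InK C r f ∧ (∀ z : Metric.ball (0 : ℂ) 1,
      F.1 z = f z) ∧ Prim f g ∧ ∃ η > 0, Rob g ξ δ η}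

lemma rob_of_near {g g' : ℂ → ℂ} {ξ : ℂ} {δ η : ℝ} (h : Rob g ξ δ η)
    (hn : ∀ z ∈ Metric.closedBall (0 : ℂ) 1, ‖g' z - g z‖ ≤ η / 2) : Rob g' ξ δ (η / 2) := by
  intro k hk hd hh
  refine h k hk hd fun z hz => ?_
  have e : k z - g z = (k z - g' z) + (g' z - g z) := by ring
  rw [e]
  refine (norm_add_le _ _).trans ?_
  linarith [hh z hz, hn z hz]

lemma isCompact_le {ρ : ℝ} (hρ : ρ < 1) :
    IsCompact {z : Metric.ball (0 : ℂ) 1 | ‖(z : ℂ)‖ ≤ ρ} := by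
  rw [Subtype.isCompact_iff]
  have e : ((↑) : Metric.ball (0 : ℂ) 1 → ℂ) '' {z : Metric.ball (0 : ℂ) 1 | ‖(z : ℂ)‖ ≤ ρ} =
      Metric.closedBall 0 ρ := by
    ext z
    constructor
    · rintro ⟨w, hw, rfl⟩
      exact mem_closedBall_zero_iff.2 hw
    · intro hz
      have hz1 := mem_closedBall_zero_iff.1 hz
      exact ⟨⟨z, mem_ball_zero_iff.2 (hz1.trans_lt hρ)⟩, hz1, rfl⟩
  rw [e]
  exact isCompact_closedBall _ _

theorem isOpen_rob_of {C r : ℝ}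
    (hprim : ∀ f : ℂ → ℂ, InK C r f → ∃ g, Prim f g)
    (hunif : ∀ ε > 0, ∃ ρ < 1, ∃ ε' > 0,
      ∀ f f' g g' : ℂ → ℂ, InK C r f → InK C r f' → Prim f g → Prim f' g' →
        (∀ z : ℂ, ‖z‖ ≤ ρ → ‖f' z - f z‖ ≤ ε') →
        ∀ z ∈ Metric.closedBall (0 : ℂ) 1, ‖g' z - g z‖ ≤ ε) (ξ : ℂ) (δ : ℝ) :
    IsOpen (RobSet C r ξ δ) := by
  rw [isOpen_iff_mem_nhds]
  rintro F ⟨f, g, hf, hFf, hg, η, hη, hR⟩
  obtain ⟨ρ, hρ, ε', hε', hu⟩ := hunif (η / 2) (by positivity)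
  have h1 := (ContinuousMap.tendsto_iff_forall_isCompact_tendstoUniformlyOn
    (F := fun G : C(Metric.ball (0 : ℂ) 1, ℂ) => G) (p := 𝓝 F.1) (f := F.1)).1 tendsto_id
    _ (isCompact_le hρ)
  rw [Metric.tendstoUniformlyOn_iff] at h1
  have h2 := (continuous_subtype_val.tendsto F).eventually (h1 ε' hε')
  filter_upwards [h2] with F' hF'
  obtain ⟨f', hf', hFf'⟩ := F'.2
  obtain ⟨g', hg'⟩ := hprim f' hf'
  refine ⟨f', g', hf', hFf', hg', η / 2, by positivity, rob_of_near hR ?_⟩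
  refine hu f f' g g' hf hf' hg hg' fun z hz => ?_
  have hzb : z ∈ Metric.ball (0 : ℂ) 1 := mem_ball_zero_iff.2 (hz.trans_lt hρ)
  have h3 := hF' ⟨z, hzb⟩ hz
  rw [dist_comm, dist_eq_norm, hFf ⟨z, hzb⟩, hFf' ⟨z, hzb⟩] at h3
  exact h3.le

theorem dense_rob_of {C r : ℝ} (ξ : ℂ) (δ : ℝ)
    (hdens : ∀ f : ℂ → ℂ, InK C r f → ∀ ε > 0, ∀ ρ₀ < 1,
      ∃ f' g' : ℂ → ℂ, InK C r f' ∧ Prim f' g' ∧ (∀ z : ℂ, ‖z‖ ≤ ρ₀ → ‖f' z - f z‖ ≤ ε) ∧
        ∃ η > 0, Rob g' ξ δ η) :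
    Dense (RobSet C r ξ δ) := by
  intro F
  obtain ⟨f, hf, hFf⟩ := F.2
  have hn : ∀ n : ℕ, (1 - 1 / ((n : ℝ) + 2)) < 1 := fun n => by
    have : (0 : ℝ) < 1 / ((n : ℝ) + 2) := by positivity
    linarith
  have hn' : ∀ n : ℕ, (0 : ℝ) < 1 / ((n : ℝ) + 1) := fun n => by positivity
  choose φ γ h1 h2 h3 h4 using fun n : ℕ => hdens f hf (1 / ((n : ℝ) + 1)) (hn' n) _ (hn n)
  set G : ℕ → KSet C r := fun n =>
    ⟨⟨fun z => φ n z, ((h1 n).diff.continuousOn.domRestrict)⟩, ⟨φ n, h1 n, fun z => rfl⟩⟩ with hG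
  refine mem_closure_of_tendsto (f := G) (b := atTop) ?_ (Eventually.of_forall fun n => ?_)
  · rw [tendsto_subtype_rng, ContinuousMap.tendsto_iff_forall_isCompact_tendstoUniformlyOn]
    intro K hK
    rw [Metric.tendstoUniformlyOn_iff]
    intro ε hε
    -- a radius for `K`
    obtain ⟨ρ, hρ, hKρ⟩ : ∃ ρ < 1, ∀ z ∈ K, ‖(z : ℂ)‖ ≤ ρ := by
      rcases K.eq_empty_or_nonempty with h | h
      · exact ⟨0, by norm_num, by simp [h]⟩
      · obtain ⟨w, hw, hw2⟩ := hK.exists_isMaxOn h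
          (f := fun z : Metric.ball (0 : ℂ) 1 => ‖(z : ℂ)‖)
          (continuous_subtype_val.norm).continuousOn
        exact ⟨‖(w : ℂ)‖, mem_ball_zero_iff.1 w.2, fun z hz => hw2 hz⟩
    have hl1 : Tendsto (fun n : ℕ => 1 / ((n : ℝ) + 1)) atTop (𝓝 0) :=
      tendsto_one_div_add_atTop_nhds_zero_nat
    obtain ⟨k, hk⟩ := exists_nat_one_div_lt (sub_pos.2 hρ)
    filter_upwards [hl1.eventually (gt_mem_nhds hε), eventually_ge_atTop k] with n hn1 hn2 z hz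
    have h5 : ‖(z : ℂ)‖ ≤ 1 - 1 / ((n : ℝ) + 2) := by
      refine (hKρ z hz).trans ?_
      have h0 : (0 : ℝ) ≤ k := Nat.cast_nonneg k
      have h6 : (k : ℝ) ≤ n := by exact_mod_cast hn2
      have h7 : 1 / ((n : ℝ) + 2) ≤ 1 / ((k : ℝ) + 1) :=
        one_div_le_one_div_of_le (by linarith) (by linarith)
      linarith
    rw [dist_comm, dist_eq_norm, hFf z]
    exact (h3 n z h5).trans_lt hn1
  · exact ⟨φ n, γ n, h1 n, fun z => rfl, h2 n, h4 n⟩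

end Pool.Agent.H50.IW
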